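import Mathlib

set_option autoImplicit false

/-! Abel summation as an inequality, and sums of `1 / (n log n)`. -/

namespace Pool.Agent.D0H48.Nq

open Finset

lemma loglog_step (n : ℕ) (hn : 3 ≤ n) :
    1 / ((n : ℝ) * Real.log n) ≤ Real.log (Real.log n) - Real.log (Real.log ((n - 1 : ℕ) : ℝ)) := by
  have hn3 : (3 : ℝ) ≤ n := by exact_mod_cast hn
  have hc : ((n - 1 : ℕ) : ℝ) = (n : ℝ) - 1 := by
    rw [Nat.cast_sub (by omega)]; simp
  rw [hc]
  have h1 : 0 < Real.log ((n : ℝ) - 1) := Real.log_pos (by linarith)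
  have h2 : 0 < Real.log (n : ℝ) := Real.log_pos (by linarith)
  have h3 : 1 / (n : ℝ) ≤ Real.log n - Real.log ((n : ℝ) - 1) := by
    have h4 := Real.log_le_sub_one_of_pos (show 0 < ((n : ℝ) - 1) / n by
      apply div_pos <;> linarith)
    rw [Real.log_div (by linarith) (by linarith)] at h4
    have h5 : ((n : ℝ) - 1) / n - 1 = - (1 / n) := by
      field_simp
      ring
    rw [h5] at h4
    linarith
  have h6 : 1 - Real.log ((n : ℝ) - 1) / Real.log n ≤ Real.log (Real.log n) - Real.log (Real.log ((n : ℝ) - 1)) := by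
    have h7 := Real.log_le_sub_one_of_pos (div_pos h1 h2)
    rw [Real.log_div h1.ne' h2.ne'] at h7
    linarith
  have h8 : 1 / ((n : ℝ) * Real.log n) ≤ 1 - Real.log ((n : ℝ) - 1) / Real.log n := by
    have h9 : 1 - Real.log ((n : ℝ) - 1) / Real.log n = (Real.log n - Real.log ((n : ℝ) - 1)) / Real.log n := by
      field_simp
    rw [h9, ← div_div]
    exact div_le_div_of_nonneg_right h3 h2.le
  linarith

lemma sum_loglog (a b : ℕ) (ha : 2 ≤ a) (hab : a ≤ b) :
    ∑ n ∈ Ioc a b, 1 / ((n : ℝ) * Real.log n) ≤ Real.log (Real.log b) - Real.log (Real.log a) := by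
  induction b, hab using Nat.le_induction with
  | base => simp
  | succ b hb ih =>
    rw [sum_Ioc_succ_top hb]
    have h := loglog_step (b + 1) (by omega)
    rw [Nat.add_sub_cancel] at h
    linarith

/-- Abel summation -/
lemma abel (w : ℕ → ℝ) (B : ℝ) (a b y : ℕ) (hy : y ≤ a) (ha : 2 ≤ a) (hab : a ≤ b)
    (hw : ∀ n, 0 ≤ w n) (hA : ∀ t, a ≤ t → t ≤ b → ∑ n ∈ Ioc y t, w n ≤ B * t) :
    ∑ n ∈ Ioc a b, w n * (1 / ((n : ℝ) * Real.log n)) ≤
      B * (Real.log (Real.log b) - Real.log (Real.log a) + 1 / Real.log a) := by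
  have hB : 0 ≤ B := by
    have h1 := hA a le_rfl hab
    have h2 : 0 ≤ ∑ n ∈ Ioc y a, w n := sum_nonneg fun n _ => hw n
    have h3 : (0 : ℝ) < a := by exact_mod_cast (by omega : 0 < a)
    by_contra hcon
    push Not at hcon
    nlinarith
  have key : ∀ b, a ≤ b → (∀ t, a ≤ t → t ≤ b → ∑ n ∈ Ioc y t, w n ≤ B * t) →
      ∑ n ∈ Ioc a b, w n * (1 / ((n : ℝ) * Real.log n)) ≤
      B * (∑ n ∈ Ioc a b, 1 / ((n : ℝ) * Real.log n) + a * (1 / ((a : ℝ) * Real.log a)))
        + (∑ n ∈ Ioc y b, w n - B * b) * (1 / ((b : ℝ) * Real.log b)) := by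
    intro b hb
    induction b, hb using Nat.le_induction with
    | base =>
      intro _
      have h2 : 0 ≤ ∑ n ∈ Ioc y a, w n := sum_nonneg fun n _ => hw n
      have h3 : (0 : ℝ) < 1 / ((a : ℝ) * Real.log a) := by
        have : (2 : ℝ) ≤ a := by exact_mod_cast ha
        have := Real.log_pos (show (1 : ℝ) < a by linarith)
        positivity
      simp only [Ioc_self, sum_empty, zero_add]
      nlinarith
    | succ b hb ih =>
      intro hA'
      have h1 := ih (fun t h2 h3 => hA' t h2 (by omega))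
      have hAb := hA' b hb (by omega)
      have hb2 : (2 : ℝ) ≤ b := by exact_mod_cast (ha.trans hb)
      have hl := Real.log_pos (show (1 : ℝ) < b by linarith)
      have hl1 : Real.log b ≤ Real.log ((b + 1 : ℕ) : ℝ) := Real.log_le_log (by linarith) (by push_cast; linarith)
      obtain ⟨f, hf⟩ : ∃ f, f = 1 / ((b : ℝ) * Real.log b) := ⟨_, rfl⟩
      obtain ⟨f', hf'⟩ : ∃ f', f' = 1 / (((b + 1 : ℕ) : ℝ) * Real.log ((b + 1 : ℕ) : ℝ)) := ⟨_, rfl⟩
      have hff : f' ≤ f := by
        rw [hf, hf']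
        apply one_div_le_one_div_of_le (by positivity)
        apply mul_le_mul _ hl1 hl.le (by positivity)
        push_cast
        linarith
      rw [sum_Ioc_succ_top hb, sum_Ioc_succ_top hb, sum_Ioc_succ_top (by omega : y ≤ b), ← hf']
      rw [← hf] at h1
      push_cast
      nlinarith [mul_nonneg (sub_nonneg.2 hAb) (sub_nonneg.2 hff)]
  have h1 := key b hab hA
  have h2 := hA b hab le_rfl
  have h3 := sum_loglog a b ha hab
  have ha2 : (2 : ℝ) ≤ a := by exact_mod_cast ha
  have hb2 : (2 : ℝ) ≤ b := by exact_mod_cast (ha.trans hab)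
  have h4 := Real.log_pos (show (1 : ℝ) < a by linarith)
  have h5 : (0 : ℝ) < 1 / ((b : ℝ) * Real.log b) := by
    have := Real.log_pos (show (1 : ℝ) < b by linarith)
    positivity
  have h6 : (a : ℝ) * (1 / ((a : ℝ) * Real.log a)) = 1 / Real.log a := by
    field_simp
  rw [h6] at h1
  have h7 : (∑ n ∈ Ioc y b, w n - B * b) * (1 / ((b : ℝ) * Real.log b)) ≤ 0 :=
    mul_nonpos_of_nonpos_of_nonneg (by linarith) h5.le
  have h8 := mul_le_mul_of_nonneg_left h3 hB
  nlinarith

end Pool.Agent.D0H48.Nq
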