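import Mathlib

set_option autoImplicit false

/-! A delayed growth inequality. -/

namespace Pool.Agent.D0H48.Nq

open Finset

lemma exp_quad (x : ℝ) (h0 : 0 ≤ x) (h1 : x ≤ 1) : Real.exp x ≤ 1 + x + x ^ 2 := by
  have h := Real.abs_exp_sub_one_sub_id_le (show |x| ≤ 1 by rw [abs_of_nonneg h0]; exact h1)
  have := (abs_le.1 h).2
  linarith

lemma geo_sum (h : ℝ) (hh : 1 ≤ h) (n : ℕ) : ∑ i ∈ range n, Real.exp (-(h * i)) ≤ 2 := by
  have h1 : ∀ i : ℕ, Real.exp (-(h * i)) ≤ (1 / 2 : ℝ) ^ i := by
    intro i
    have h2 : Real.exp (-(h * i)) = (Real.exp (-h)) ^ i := by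
      rw [← Real.exp_nat_mul]; congr 1; ring
    rw [h2]
    apply pow_le_pow_left₀ (Real.exp_pos _).le
    rw [Real.exp_neg, inv_eq_one_div]
    apply one_div_le_one_div_of_le (by norm_num)
    have := Real.add_one_le_exp h
    linarith
  refine (sum_le_sum fun i _ => h1 i).trans ?_
  have h3 := geom_sum_eq (show (1 / 2 : ℝ) ≠ 1 by norm_num) n
  rw [h3]
  have h4 : (0 : ℝ) ≤ (1 / 2) ^ n := by positivity
  rw [show ((1 / 2 : ℝ) ^ n - 1) / (1 / 2 - 1) = 2 * (1 - (1 / 2) ^ n) by ring]
  linarith

/-- the growth lemma -/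
theorem growth (h ε G0 : ℝ) (hh : 1 ≤ h) (hε : 0 < ε) (hε1 : ε ≤ 1 / 2) (hG0 : 1 ≤ G0) :
    ∃ C : ℝ, 0 < C ∧ ∀ g r s : ℕ → ℝ, (∀ j, 1 ≤ g j) → (∀ j, g j ≤ g (j + 1)) → g 1 ≤ G0 →
      (∀ j, 0 ≤ r j) → (∀ j, 0 ≤ s j) →
      (∀ j : ℕ, r j ≤ Real.exp (-(9 * h * (j + 1)))) → (∀ j : ℕ, s j ≤ Real.exp (-(h * (j + 1)))) →
      (∀ j, g (j + 2) ≤ g (j + 1) * Real.exp ((1 + ε) * h * (1 / g j + r j) * (1 + s j))) →
      ∀ j : ℕ, g j ≤ C + (1 + ε) ^ 3 * h * j := by
  -- threshold
  obtain ⟨A, hA⟩ : ∃ A : ℝ, A = 16 * h / ε + 1 := ⟨_, rfl⟩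
  obtain ⟨J, hJ⟩ : ∃ J : ℕ, ∀ j : ℕ, J ≤ j → 8 * h * Real.exp (-(9 * h * (j + 1))) ≤ ε / 4 := by
    obtain ⟨J, hJ⟩ := exists_nat_gt (32 * h / ε)
    refine ⟨J, fun j hj => ?_⟩
    have h1 : Real.exp (-(9 * h * (j + 1))) ≤ 1 / (j + 1 : ℝ) := by
      rw [Real.exp_neg, inv_eq_one_div]
      apply one_div_le_one_div_of_le (by positivity)
      have h2 := Real.add_one_le_exp (9 * h * ((j : ℝ) + 1))
      have h3 : (j : ℝ) + 1 ≤ 9 * h * ((j : ℝ) + 1) := by
        have : (0 : ℝ) ≤ j := Nat.cast_nonneg _
        nlinarith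
      linarith
    have h4 : 32 * h / ε ≤ j + 1 := by
      have : (J : ℝ) ≤ j := by exact_mod_cast hj
      linarith
    have h5 : 8 * h * (1 / (j + 1 : ℝ)) ≤ ε / 4 := by
      rw [div_le_iff₀ hε] at h4
      rw [mul_one_div, div_le_iff₀ (by positivity)]
      linarith
    refine le_trans ?_ h5
    exact mul_le_mul_of_nonneg_left h1 (by linarith)
  obtain ⟨C, hC⟩ : ∃ C : ℝ, C = A * Real.exp (24 * h) + G0 * Real.exp (8 * h * (J + 3)) +
    64 * h * (1 + G0) * Real.exp h := ⟨_, rfl⟩
  have hA1 : 1 ≤ A := by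
    rw [hA]
    have : 0 ≤ 16 * h / ε := by positivity
    linarith
  have hCpos : 0 < C := by
    rw [hC]; positivity
  refine ⟨C, hCpos, fun g r s hg1 hgm hg0 hr0 hs0 hr hs hrec => ?_⟩
  have hexp1 : ∀ j : ℕ, Real.exp (-(9 * h * (j + 1))) ≤ 1 := by
    intro j
    apply Real.exp_le_one_iff.2
    have : (0 : ℝ) ≤ j := Nat.cast_nonneg _
    have : 0 ≤ 9 * h * (j + 1) := by positivity
    linarith
  have hexp2 : ∀ j : ℕ, Real.exp (-(h * (j + 1))) ≤ 1 := by
    intro j
    apply Real.exp_le_one_iff.2
    have : (0 : ℝ) ≤ j := Nat.cast_nonneg _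
    have : 0 ≤ h * (j + 1) := by positivity
    linarith
  have hinv : ∀ j, 1 / g j ≤ 1 := fun j => by
    rw [div_le_one (by linarith [hg1 j])]
    exact hg1 j
  have hinv0 : ∀ j, 0 ≤ 1 / g j := fun j => by
    have := hg1 j
    positivity
  -- crude step
  have hu : ∀ j, (1 + ε) * h * (1 / g j + r j) * (1 + s j) ≤ 8 * h := by
    intro j
    have h1 : 1 / g j + r j ≤ 2 := by linarith [hinv j, hr j, hexp1 j]
    have h2 : 1 + s j ≤ 2 := by linarith [hs j, hexp2 j]
    calc (1 + ε) * h * (1 / g j + r j) * (1 + s j) ≤ (2 * h) * 2 * 2 := by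
          apply mul_le_mul _ h2 (by linarith [hs0 j]) (by positivity)
          apply mul_le_mul _ h1 (by linarith [hinv0 j, hr0 j]) (by positivity)
          nlinarith
      _ = 8 * h := by ring
  have hstep : ∀ j, g (j + 2) ≤ g (j + 1) * Real.exp (8 * h) := by
    intro j
    refine (hrec j).trans ?_
    apply mul_le_mul_of_nonneg_left _ (by linarith [hg1 (j + 1)])
    exact Real.exp_le_exp.2 (hu j)
  have hcrude : ∀ j : ℕ, g (j + 1) ≤ G0 * Real.exp (8 * h * j) := by
    intro j
    induction j with
    | zero => simpa using hg0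
    | succ j ih =>
      refine (hstep j).trans ?_
      calc g (j + 1) * Real.exp (8 * h) ≤ G0 * Real.exp (8 * h * j) * Real.exp (8 * h) :=
            mul_le_mul_of_nonneg_right ih (Real.exp_pos _).le
        _ = G0 * Real.exp (8 * h * ((j + 1 : ℕ) : ℝ)) := by
            rw [mul_assoc, ← Real.exp_add]; congr 2; push_cast; ring
  have hrg : ∀ j : ℕ, r j * g (j + 1) ≤ G0 * Real.exp (-(h * j)) := by
    intro j
    calc r j * g (j + 1) ≤ Real.exp (-(9 * h * (j + 1))) * (G0 * Real.exp (8 * h * j)) :=
          mul_le_mul (hr j) (hcrude j) (by linarith [hg1 (j + 1)]) (Real.exp_pos _).le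
      _ = G0 * (Real.exp (-(9 * h * (j + 1))) * Real.exp (8 * h * j)) := by ring
      _ ≤ G0 * Real.exp (-(h * j)) := by
          apply mul_le_mul_of_nonneg_left _ (by linarith)
          rw [← Real.exp_add]
          apply Real.exp_le_exp.2
          linarith
  -- main induction
  have hmain : ∀ j : ℕ, g j ≤ (A * Real.exp (24 * h) + G0 * Real.exp (8 * h * (J + 3))) +
      (1 + ε) ^ 3 * h * j + 16 * h * (1 + G0) * Real.exp h * ∑ i ∈ range j, Real.exp (-(h * i)) := by
    intro j
    induction j using Nat.strong_induction_on with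
    | _ j ih =>
    have hsum0 : 0 ≤ 16 * h * (1 + G0) * Real.exp h * ∑ i ∈ range j, Real.exp (-(h * i)) := by
      apply mul_nonneg (by positivity)
      exact sum_nonneg fun i _ => (Real.exp_pos _).le
    have hlin0 : 0 ≤ (1 + ε) ^ 3 * h * j := by positivity
    have hAe : 0 ≤ A * Real.exp (24 * h) := by positivity
    rcases Nat.lt_or_ge (J + 3) j with hj | hj
    · obtain ⟨i, rfl⟩ : ∃ i, j = i + 3 := ⟨j - 3, by omega⟩
      rcases lt_or_ge (g i) A with hA' | hA'
      · -- small
        have h1 := hstep i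
        have h2 := hstep (i + 1)
        have h3 : g (i + 1) ≤ g i * Real.exp (8 * h) ∨ i = 0 := by
          rcases Nat.eq_zero_or_pos i with h0 | h0
          · right; exact h0
          · left
            obtain ⟨l, rfl⟩ : ∃ l, i = l + 1 := ⟨i - 1, by omega⟩
            exact hstep l
        rcases h3 with h3 | h3
        · have h4 : g (i + 3) ≤ A * Real.exp (24 * h) := by
            calc g (i + 3) ≤ g (i + 2) * Real.exp (8 * h) := h2
              _ ≤ (g (i + 1) * Real.exp (8 * h)) * Real.exp (8 * h) :=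
                  mul_le_mul_of_nonneg_right h1 (Real.exp_pos _).le
              _ ≤ ((A * Real.exp (8 * h)) * Real.exp (8 * h)) * Real.exp (8 * h) := by
                  apply mul_le_mul_of_nonneg_right _ (Real.exp_pos _).le
                  apply mul_le_mul_of_nonneg_right _ (Real.exp_pos _).le
                  exact h3.trans (mul_le_mul_of_nonneg_right hA'.le (Real.exp_pos _).le)
              _ = A * Real.exp (24 * h) := by
                  rw [mul_assoc, mul_assoc, ← Real.exp_add, ← Real.exp_add]; congr 2; ring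
          have : 0 ≤ G0 * Real.exp (8 * h * (J + 3)) := by positivity
          linarith
        · omega
      · -- large
        have hgi : A ≤ g i := hA'
        have hgi1 : A ≤ g (i + 1) := hgi.trans (hgm i)
        have hgi2 : A ≤ g (i + 2) := hgi1.trans (hgm (i + 1))
        have hsmall : ∀ l, J ≤ l → A ≤ g l → (1 + ε) * h * (1 / g l + r l) * (1 + s l) ≤ ε / 2 := by
          intro l hl hAl
          have h2 : 1 + s l ≤ 2 := by linarith [hs l, hexp2 l]
          have h3 : 1 / g l ≤ ε / (16 * h) := by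
            have h4 : 16 * h / ε ≤ g l := by linarith [hA]
            rw [div_le_div_iff₀ (by linarith [hg1 l]) (by positivity)]
            rw [div_le_iff₀ hε] at h4
            linarith
          have h5 : r l ≤ ε / (32 * h) := by
            have h6 := hJ l hl
            have h7 := hr l
            rw [le_div_iff₀ (by positivity)]
            nlinarith
          calc (1 + ε) * h * (1 / g l + r l) * (1 + s l) ≤ (2 * h) * (ε / (16 * h) + ε / (32 * h)) * 2 := by
                apply mul_le_mul _ h2 (by linarith [hs0 l]) (by positivity)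
                apply mul_le_mul _ (by linarith) (by linarith [hinv0 l, hr0 l]) (by positivity)
                nlinarith
            _ = ε / 4 + ε / 8 := by
                field_simp
                ring
            _ ≤ ε / 2 := by linarith
        have e1 := hsmall i (by omega) hgi
        have e2 := hsmall (i + 1) (by omega) hgi1
        -- g (i+2) ≤ (1+ε) g (i+1)
        have h6 : g (i + 2) ≤ (1 + ε) * g (i + 1) := by
          refine (hrec i).trans ?_
          rw [mul_comm]
          apply mul_le_mul_of_nonneg_right _ (by linarith [hg1 (i + 1)])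
          have h7 := Real.exp_le_exp.2 e1
          have h8 := exp_quad (ε / 2) (by linarith) (by linarith)
          nlinarith
        obtain ⟨X, hX⟩ : ∃ X, X = (1 + ε) * h * (1 / g (i + 1) + r (i + 1)) * (1 + s (i + 1)) := ⟨_, rfl⟩
        have h7 := hrec (i + 1)
        rw [show i + 1 + 2 = i + 3 by ring, show i + 1 + 1 = i + 2 by ring, ← hX] at h7
        rw [← hX] at e2
        have hX0 : 0 ≤ X := by
          rw [hX]
          have := hinv0 (i + 1)
          have := hr0 (i + 1)
          have := hs0 (i + 1)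
          positivity
        have h8 : Real.exp X ≤ 1 + (1 + ε) * X := by
          have := exp_quad X hX0 (by linarith)
          nlinarith
        have h9 : g (i + 3) ≤ g (i + 2) + (1 + ε) * (g (i + 2) * X) := by
          refine h7.trans ?_
          have := mul_le_mul_of_nonneg_left h8 (show 0 ≤ g (i + 2) by linarith [hg1 (i + 2)])
          linarith
        have h10 : g (i + 2) * X ≤ (1 + ε) * h * (1 + ε) * (1 + s (i + 1)) + 4 * h * (r (i + 1) * g (i + 2)) := by
          rw [hX]
          have h11 : g (i + 2) * (1 / g (i + 1)) ≤ 1 + ε := by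
            rw [mul_one_div, div_le_iff₀ (by linarith [hg1 (i + 1)])]
            exact h6
          have h12 : g (i + 2) * ((1 + ε) * h * (1 / g (i + 1) + r (i + 1)) * (1 + s (i + 1))) =
            (1 + ε) * h * (g (i + 2) * (1 / g (i + 1))) * (1 + s (i + 1)) +
            (1 + ε) * h * (1 + s (i + 1)) * (r (i + 1) * g (i + 2)) := by ring
          rw [h12]
          apply add_le_add
          · apply mul_le_mul_of_nonneg_right _ (by linarith [hs0 (i + 1)])
            exact mul_le_mul_of_nonneg_left h11 (by positivity)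
          · apply mul_le_mul_of_nonneg_right _ (mul_nonneg (hr0 _) (by linarith [hg1 (i + 2)]))
            have h13 : 1 + s (i + 1) ≤ 2 := by linarith [hs (i + 1), hexp2 (i + 1)]
            calc (1 + ε) * h * (1 + s (i + 1)) ≤ (2 * h) * 2 := by
                  apply mul_le_mul _ h13 (by linarith [hs0 (i + 1)]) (by positivity)
                  nlinarith
              _ = 4 * h := by ring
        have h14 := hrg (i + 1)
        rw [show i + 1 + 1 = i + 2 by ring] at h14
        have h15 : s (i + 1) ≤ Real.exp (-(h * ((i + 1 : ℕ) : ℝ))) := by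
          refine (hs (i + 1)).trans (Real.exp_le_exp.2 ?_)
          push_cast
          nlinarith
        obtain ⟨E, hE⟩ : ∃ E, E = Real.exp (-(h * ((i + 1 : ℕ) : ℝ))) := ⟨_, rfl⟩
        rw [← hE] at h14 h15
        have hE0 : 0 ≤ E := by rw [hE]; exact (Real.exp_pos _).le
        have h16 : g (i + 3) ≤ g (i + 2) + (1 + ε) ^ 3 * h + 16 * h * (1 + G0) * E := by
          have h17 : (1 + ε) * (g (i + 2) * X) ≤ (1 + ε) * ((1 + ε) * h * (1 + ε) * (1 + E) + 4 * h * (G0 * E)) := by
            apply mul_le_mul_of_nonneg_left _ (by linarith)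
            refine h10.trans ?_
            apply add_le_add
            · exact mul_le_mul_of_nonneg_left (by linarith) (by positivity)
            · exact mul_le_mul_of_nonneg_left h14 (by positivity)
          have h18 : (1 + ε) * ((1 + ε) * h * (1 + ε) * (1 + E) + 4 * h * (G0 * E)) =
            (1 + ε) ^ 3 * h + ((1 + ε) ^ 3 * h + (1 + ε) * 4 * h * G0) * E := by ring
          have h19 : (1 + ε) ^ 3 * h + (1 + ε) * 4 * h * G0 ≤ 16 * h * (1 + G0) := by
            have a1 : (1 + ε) ^ 3 ≤ 4 := by
              have : (1 + ε) ^ 3 ≤ (3 / 2 : ℝ) ^ 3 := pow_le_pow_left₀ (by linarith) (by linarith) 3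
              linarith [show ((3 / 2 : ℝ)) ^ 3 ≤ 4 by norm_num]
            have a2 : (1 + ε) ^ 3 * h ≤ 4 * h := mul_le_mul_of_nonneg_right a1 (by linarith)
            have a3 : (1 + ε) * 4 * h * G0 ≤ 2 * 4 * h * G0 := by
              apply mul_le_mul_of_nonneg_right _ (by linarith)
              apply mul_le_mul_of_nonneg_right _ (by linarith)
              linarith
            nlinarith
          have h20 := mul_le_mul_of_nonneg_right h19 hE0
          linarith
        have h21 := ih (i + 2) (by omega)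
        have h22 : ∑ l ∈ range (i + 3), Real.exp (-(h * l)) =
            ∑ l ∈ range (i + 2), Real.exp (-(h * l)) + Real.exp (-(h * ((i + 2 : ℕ) : ℝ))) := by
          rw [show i + 3 = (i + 2) + 1 by ring, sum_range_succ]
        have h23 : 16 * h * (1 + G0) * Real.exp h * Real.exp (-(h * ((i + 2 : ℕ) : ℝ))) = 16 * h * (1 + G0) * E := by
          rw [mul_assoc (16 * h * (1 + G0)), ← Real.exp_add, hE]
          congr 2
          push_cast
          ring
        have h24 : (1 + ε) ^ 3 * h * ((i + 3 : ℕ) : ℝ) = (1 + ε) ^ 3 * h * ((i + 2 : ℕ) : ℝ) + (1 + ε) ^ 3 * h := by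
          push_cast
          ring
        rw [h22, mul_add (16 * h * (1 + G0) * Real.exp h), h23, h24]
        linarith
    · have h1 : g j ≤ G0 * Real.exp (8 * h * (J + 3)) := by
        rcases Nat.eq_zero_or_pos j with h0 | h0
        · rw [h0]
          calc g 0 ≤ g 1 := hgm 0
            _ ≤ G0 := hg0
            _ = G0 * 1 := by ring
            _ ≤ G0 * Real.exp (8 * h * (J + 3)) := by
                apply mul_le_mul_of_nonneg_left _ (by linarith)
                apply Real.one_le_exp
                positivity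
        · obtain ⟨l, rfl⟩ : ∃ l, j = l + 1 := ⟨j - 1, by omega⟩
          refine (hcrude l).trans ?_
          apply mul_le_mul_of_nonneg_left _ (by linarith)
          apply Real.exp_le_exp.2
          apply mul_le_mul_of_nonneg_left _ (by linarith)
          have : ((l + 1 : ℕ) : ℝ) ≤ ((J + 3 : ℕ) : ℝ) := by exact_mod_cast hj
          push_cast at this
          linarith
      linarith
  intro j
  have h1 := hmain j
  have h2 := geo_sum h hh j
  have h3 : 16 * h * (1 + G0) * Real.exp h * ∑ i ∈ range j, Real.exp (-(h * i)) ≤ 16 * h * (1 + G0) * Real.exp h * 2 :=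
    mul_le_mul_of_nonneg_left h2 (by positivity)
  have h4 : 16 * h * (1 + G0) * Real.exp h * 2 ≤ 64 * h * (1 + G0) * Real.exp h := by
    have : 0 < h * (1 + G0) * Real.exp h := by positivity
    nlinarith
  rw [hC]
  linarith

end Pool.Agent.D0H48.Nq
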