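import Mathlib
import Pool.Agent.H373R2.T7.FundC
import Pool.Agent.D0H48.Nq.Abel

set_option autoImplicit false

/-! Sets of primes none of which is `1` modulo another one: the sieve. -/

namespace Pool.Agent.D0H48.Nq

open Finset Pool.Agent.H373R2.T7

/-- sets of odd primes none of which is `1` modulo another one -/
def Nrm (S : Finset ℕ) : Prop := (∀ p ∈ S, p.Prime ∧ 3 ≤ p) ∧ ∀ p ∈ S, ∀ q ∈ S, p % q ≠ 1

/-- the classes `1` modulo the elements of `S` -/
def QS (S : Finset ℕ) (p n : ℕ) : Prop := p ∈ S ∧ n % p = 1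

/-- the product over the elements up to `y` -/
noncomputable def gS (S : Finset ℕ) (y : ℕ) : ℝ := ∏ p ∈ S.filter (fun p => p ≤ y), (1 + 1 / ((p : ℝ) - 2))

lemma QS_per (S : Finset ℕ) : PerA (QS S) 1 := by
  constructor
  · intro p n
    unfold QS
    rw [Nat.mod_mod]
  · intro p hp
    unfold rhoA
    classical
    apply card_le_one.2
    intro a ha b hb
    rw [mem_filter, mem_range] at ha hb
    have h1 := ha.2.2.2
    have h2 := hb.2.2.2
    rw [Nat.mod_eq_of_lt ha.1] at h1
    rw [Nat.mod_eq_of_lt hb.1] at h2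
    omega

lemma QS_rho_mem {S : Finset ℕ} (hS : Nrm S) {p : ℕ} (hp : p ∈ S) : rhoA (QS S) p = 1 := by
  have h3 := (hS.1 p hp).2
  apply le_antisymm ((QS_per S).few p (hS.1 p hp).1)
  unfold rhoA
  classical
  apply Nat.one_le_iff_ne_zero.2
  apply card_ne_zero.2
  refine ⟨1, ?_⟩
  rw [mem_filter, mem_range]
  refine ⟨by omega, ?_, hp, Nat.mod_eq_of_lt (by omega)⟩
  intro h
  have := Nat.le_of_dvd one_pos h
  omega

lemma QS_rho_not {S : Finset ℕ} {p : ℕ} (hp : p ∉ S) : rhoA (QS S) p = 0 := by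
  unfold rhoA
  classical
  apply card_eq_zero.2
  apply filter_eq_empty_iff.2
  intro r _ h
  exact hp h.2.1

lemma gS_ge {S : Finset ℕ} (hS : Nrm S) (y : ℕ) : 1 ≤ gS S y := by
  unfold gS
  have : (1 : ℝ) = ∏ p ∈ S.filter (fun p => p ≤ y), 1 := by simp
  conv_lhs => rw [this]
  apply prod_le_prod (fun _ _ => zero_le_one)
  intro p hp
  have h3 := (hS.1 p (mem_filter.1 hp).1).2
  have h4 : (3 : ℝ) ≤ p := by exact_mod_cast h3
  have : 0 < 1 / ((p : ℝ) - 2) := by apply div_pos one_pos; linarith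
  linarith

lemma gS_mono {S : Finset ℕ} (hS : Nrm S) {y z : ℕ} (hyz : y ≤ z) : gS S y ≤ gS S z := by
  unfold gS
  apply prod_le_prod_of_subset_of_one_le
  · intro p hp
    rw [mem_filter] at hp ⊢
    exact ⟨hp.1, hp.2.trans hyz⟩
  · intro p hp
    have h3 := (hS.1 p (mem_filter.1 hp).1).2
    have h4 : (3 : ℝ) ≤ p := by exact_mod_cast h3
    have : 0 < 1 / ((p : ℝ) - 2) := by apply div_pos one_pos; linarith
    linarith
  · intro p hp _
    have h3 := (hS.1 p (mem_filter.1 hp).1).2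
    have h4 : (3 : ℝ) ≤ p := by exact_mod_cast h3
    have : 0 < 1 / ((p : ℝ) - 2) := by apply div_pos one_pos; linarith
    linarith

lemma prod_eq {S : Finset ℕ} (hS : Nrm S) (y : ℕ) :
    ∏ p ∈ pz y, (1 - (rhoA (QS S) p : ℝ) / (p - 1 : ℝ)) = 1 / gS S y := by
  have h1 : ∏ p ∈ pz y, (1 - (rhoA (QS S) p : ℝ) / (p - 1 : ℝ)) =
      ∏ p ∈ S.filter (fun p => p ≤ y), (1 - 1 / ((p : ℝ) - 1)) := by
    symm
    have hsub : S.filter (fun p => p ≤ y) ⊆ pz y := by
      intro p hp
      rw [mem_filter] at hp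
      exact mem_pz.2 ⟨hp.2, (hS.1 p hp.1).1⟩
    rw [← prod_subset hsub]
    · apply prod_congr rfl
      intro p hp
      rw [QS_rho_mem hS (mem_filter.1 hp).1]
      norm_num
    · intro p hp hn
      have : p ∉ S := fun h => hn (mem_filter.2 ⟨h, (mem_pz.1 hp).1⟩)
      rw [QS_rho_not this]
      simp
  rw [h1]
  unfold gS
  rw [one_div, ← prod_inv_distrib]
  apply prod_congr rfl
  intro p hp
  have h3 := (hS.1 p (mem_filter.1 hp).1).2
  have h4 : (3 : ℝ) ≤ p := by exact_mod_cast h3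
  have h5 : (p : ℝ) - 1 ≠ 0 := by linarith
  have h6 : (p : ℝ) - 2 ≠ 0 := by linarith
  have h7 : 1 + 1 / ((p : ℝ) - 2) = ((p : ℝ) - 1) / ((p : ℝ) - 2) := by
    field_simp
    ring
  rw [h7, inv_div]
  field_simp
  ring

/-- the sieve bound -/
theorem sieve_bound (ε : ℝ) (hε : 0 < ε) : ∃ K : ℕ, 3 ≤ K ∧ ∃ x0 : ℕ, 3 ≤ x0 ∧
    ∀ S : Finset ℕ, Nrm S → ∀ y : ℕ, x0 ≤ y → ∀ X : ℕ, y ^ K ≤ X →
      ∑ n ∈ Ioc y X, (if n ∈ S then Real.log n else 0) ≤
        ((1 + ε) / gS S y + 1 / Real.log ((y ^ K : ℕ) : ℝ) ^ 9) * X := by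
  classical
  obtain ⟨K0, hK0, hF⟩ := lam_fund 1 le_rfl ε hε
  obtain ⟨x0, hx0⟩ := hF 9
  refine ⟨max K0 3, le_max_right _ _, max x0 3, le_max_right _ _, ?_⟩
  intro S hS y hy X hX
  have hy0 : x0 ≤ y := (le_max_left _ _).trans hy
  have hy3 : 3 ≤ y := (le_max_right _ _).trans hy
  have hyX : y ^ K0 ≤ X := (Nat.pow_le_pow_right (by omega) (le_max_left _ _)).trans hX
  have h1 := hx0 X y hy0 hyX (QS S) (QS_per S) X le_rfl
  rw [prod_eq hS] at h1
  have h2 := (abs_le.1 h1).2
  have h3 : ∑ n ∈ Ioc y X, (if n ∈ S then Real.log n else 0) ≤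
      ∑ n ∈ (Icc 1 X).filter (fun n : ℕ => ∀ p ∈ pz y, ¬ QS S p n), ArithmeticFunction.vonMangoldt n := by
    rw [← sum_filter]
    have hsub : (Ioc y X).filter (fun n => n ∈ S) ⊆ (Icc 1 X).filter (fun n : ℕ => ∀ p ∈ pz y, ¬ QS S p n) := by
      intro n hn
      rw [mem_filter, mem_Ioc] at hn
      rw [mem_filter, mem_Icc]
      refine ⟨⟨by omega, hn.1.2⟩, fun p hp hQ => ?_⟩
      exact hS.2 n hn.2 p hQ.1 hQ.2
    refine le_trans (le_of_eq ?_) (sum_le_sum_of_subset_of_nonneg hsub
      (fun _ _ _ => ArithmeticFunction.vonMangoldt_nonneg))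
    apply sum_congr rfl
    intro n hn
    rw [ArithmeticFunction.vonMangoldt_apply_prime (hS.1 n (mem_filter.1 hn).2).1]
  have hyr : (3 : ℝ) ≤ y := by exact_mod_cast hy3
  have hpow1 : 1 < ((y ^ (max K0 3) : ℕ) : ℝ) := by
    exact_mod_cast Nat.one_lt_pow (by omega) (by omega)
  have hlog1 : 0 < Real.log ((y ^ (max K0 3) : ℕ) : ℝ) := Real.log_pos hpow1
  have hlog2 : Real.log ((y ^ (max K0 3) : ℕ) : ℝ) ≤ Real.log X := by
    apply Real.log_le_log (by linarith)
    exact_mod_cast hX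
  have hX0 : (0 : ℝ) ≤ X := Nat.cast_nonneg _
  have h4 : (X : ℝ) / Real.log X ^ 9 ≤ 1 / Real.log ((y ^ (max K0 3) : ℕ) : ℝ) ^ 9 * X := by
    rw [one_div_mul_eq_div]
    apply div_le_div_of_nonneg_left hX0 (by positivity)
    exact pow_le_pow_left₀ hlog1.le hlog2 9
  have h5 : (X : ℝ) * (1 / gS S y) + ε * (X * (1 / gS S y)) = (1 + ε) / gS S y * X := by ring
  rw [add_mul]
  linarith

/-- reciprocal sums over the interval from `y ^ K` to `y ^ (K ^ 2)` -/
theorem recip_bound (ε : ℝ) (hε : 0 < ε) : ∃ K : ℕ, 3 ≤ K ∧ ∃ x0 : ℕ, 3 ≤ x0 ∧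
    ∀ S : Finset ℕ, Nrm S → ∀ y : ℕ, x0 ≤ y →
      gS S (y ^ (K ^ 2)) ≤ gS S (y ^ K) * Real.exp ((1 + ε) * ((1 + ε) / gS S y + 1 / Real.log ((y ^ K : ℕ) : ℝ) ^ 9) *
        (Real.log K + 1 / Real.log ((y ^ K : ℕ) : ℝ))) := by
  classical
  obtain ⟨K, hK3, x0, hx0, hF⟩ := sieve_bound ε hε
  obtain ⟨m, hm⟩ := exists_nat_gt ((2 + 2 * ε) / ε)
  refine ⟨K, hK3, max x0 (max m 4), hx0.trans (le_max_left _ _), ?_⟩
  intro S hS y hy
  have hy0 : x0 ≤ y := (le_max_left _ _).trans hy
  have hym : m ≤ y := (le_max_left _ _).trans ((le_max_right _ _).trans hy)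
  have hy4 : 4 ≤ y := (le_max_right _ _).trans ((le_max_right _ _).trans hy)
  obtain ⟨a, ha⟩ : ∃ a, a = y ^ K := ⟨_, rfl⟩
  obtain ⟨b, hb⟩ : ∃ b, b = y ^ (K ^ 2) := ⟨_, rfl⟩
  have hya : y ≤ a := by
    rw [ha]; exact Nat.le_self_pow (by omega) y
  have hab : a ≤ b := by
    rw [ha, hb]
    apply Nat.pow_le_pow_right (by omega)
    exact Nat.le_self_pow (by norm_num) K
  rw [← ha, ← hb]
  obtain ⟨B, hB⟩ : ∃ B, B = (1 + ε) / gS S y + 1 / Real.log (a : ℝ) ^ 9 := ⟨_, rfl⟩
  rw [← hB]
  have h1 := abel (fun n => if n ∈ S then Real.log n else 0) B a b y hya (by omega) hab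
    (fun n => by
      show 0 ≤ (if n ∈ S then Real.log n else 0)
      split_ifs
      · exact Real.log_natCast_nonneg n
      · exact le_rfl)
    (fun t hat _ => by
      rw [hB]
      have := hF S hS y hy0 t (by rw [← ha]; exact hat)
      rw [← ha] at this
      exact this)
  have hyr : (4 : ℝ) ≤ y := by exact_mod_cast hy4
  have hly : 0 < Real.log y := Real.log_pos (by linarith)
  have hla : Real.log (a : ℝ) = K * Real.log y := by
    rw [ha]; push_cast; rw [Real.log_pow]
  have hlb : Real.log (b : ℝ) = K * Real.log a := by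
    rw [hb, hla]; push_cast; rw [Real.log_pow]; push_cast; ring
  have hK0 : (0 : ℝ) < K := by exact_mod_cast (by omega : 0 < K)
  have hla0 : 0 < Real.log (a : ℝ) := by rw [hla]; positivity
  have h2 : Real.log (Real.log b) - Real.log (Real.log a) = Real.log K := by
    rw [hlb, Real.log_mul hK0.ne' hla0.ne']
    ring
  rw [h2] at h1
  -- the product
  have h3 : gS S b = gS S a * ∏ p ∈ S.filter (fun p => a < p ∧ p ≤ b), (1 + 1 / ((p : ℝ) - 2)) := by
    unfold gS
    rw [← prod_union]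
    · apply prod_congr _ (fun _ _ => rfl)
      ext p
      simp only [mem_filter, mem_union]
      constructor
      · rintro ⟨h4, h5⟩
        rcases Nat.lt_or_ge a p with h6 | h6
        · right; exact ⟨h4, h6, h5⟩
        · left; exact ⟨h4, h6⟩
      · rintro (⟨h4, h5⟩ | ⟨h4, h5, h6⟩)
        · exact ⟨h4, h5.trans hab⟩
        · exact ⟨h4, h6⟩
    · apply disjoint_left.2
      intro p h4 h5
      rw [mem_filter] at h4 h5
      omega
  have h4 : ∏ p ∈ S.filter (fun p => a < p ∧ p ≤ b), (1 + 1 / ((p : ℝ) - 2)) ≤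
      Real.exp ((1 + ε) * B * (Real.log K + 1 / Real.log a)) := by
    calc ∏ p ∈ S.filter (fun p => a < p ∧ p ≤ b), (1 + 1 / ((p : ℝ) - 2))
        ≤ ∏ p ∈ S.filter (fun p => a < p ∧ p ≤ b), Real.exp (1 / ((p : ℝ) - 2)) := by
          apply prod_le_prod
          · intro p hp
            have h5 : 3 ≤ p := (hS.1 p (mem_filter.1 hp).1).2
            have h6 : (3 : ℝ) ≤ p := by exact_mod_cast h5
            have : 0 < 1 / ((p : ℝ) - 2) := by apply div_pos one_pos; linarith
            linarith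
          · intro p _
            have := Real.add_one_le_exp (1 / ((p : ℝ) - 2))
            linarith
      _ = Real.exp (∑ p ∈ S.filter (fun p => a < p ∧ p ≤ b), 1 / ((p : ℝ) - 2)) := by
          rw [Real.exp_sum]
      _ ≤ _ := by
          apply Real.exp_le_exp.2
          calc ∑ p ∈ S.filter (fun p => a < p ∧ p ≤ b), 1 / ((p : ℝ) - 2)
              ≤ ∑ p ∈ S.filter (fun p => a < p ∧ p ≤ b), (1 + ε) * (1 / (p : ℝ)) := by
                apply sum_le_sum
                intro p hp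
                rw [mem_filter] at hp
                have h5 : y < p := by omega
                have h6 : (y : ℝ) < p := by exact_mod_cast h5
                have h7 : (2 + 2 * ε) / ε < p := by
                  have : (m : ℝ) ≤ y := by exact_mod_cast hym
                  linarith
                have h8 : 0 < (p : ℝ) - 2 := by linarith
                have h9 : 2 + 2 * ε < ε * p := by
                  rw [div_lt_iff₀ hε] at h7
                  linarith
                rw [mul_one_div, div_le_div_iff₀ h8 (by linarith)]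
                nlinarith
            _ = (1 + ε) * ∑ p ∈ S.filter (fun p => a < p ∧ p ≤ b), 1 / (p : ℝ) := by
                rw [mul_sum]
            _ = (1 + ε) * ∑ n ∈ Ioc a b, (if n ∈ S then Real.log n else 0) * (1 / ((n : ℝ) * Real.log n)) := by
                congr 1
                have h5 : S.filter (fun p => a < p ∧ p ≤ b) = (Ioc a b).filter (fun p => p ∈ S) := by
                  ext p
                  simp only [mem_filter, mem_Ioc]
                  tauto
                rw [h5, sum_filter]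
                apply sum_congr rfl
                intro n hn
                rw [mem_Ioc] at hn
                split_ifs with h6
                · have h7 : (4 : ℝ) ≤ n := by exact_mod_cast (by omega : 4 ≤ n)
                  have h8 : 0 < Real.log (n : ℝ) := Real.log_pos (by linarith)
                  field_simp
                · simp
            _ ≤ (1 + ε) * (B * (Real.log K + 1 / Real.log a)) :=
                mul_le_mul_of_nonneg_left h1 (by linarith)
            _ = (1 + ε) * B * (Real.log K + 1 / Real.log a) := by ring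
  rw [h3]
  exact mul_le_mul_of_nonneg_left h4 (by linarith [gS_ge hS a])

end Pool.Agent.D0H48.Nq
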