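import Mathlib
import Pool.Agent.D0H48.Nq.Sieve
import Pool.Agent.D0H48.Nq.Growth
import Pool.Agent.H95R2.Leh.Congr

set_option autoImplicit false

/-! Sets of primes none of which is `1` modulo another one: the bound for the product. -/

namespace Pool.Agent.D0H48.Nq

open Finset

lemma exists_root (K : ℕ) (hK : 1 ≤ K) (N : ℕ) : ∃ r : ℕ, r ^ K ≤ N ∧ N < (r + 1) ^ K := by
  induction N with
  | zero => exact ⟨0, by simp [Nat.pos_iff_ne_zero.1 hK], by simp⟩
  | succ N ih =>
    obtain ⟨r, h1, h2⟩ := ih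
    rcases Nat.lt_or_ge (N + 1) ((r + 1) ^ K) with h | h
    · exact ⟨r, by omega, h⟩
    · refine ⟨r + 1, h, ?_⟩
      have : (r + 1) ^ K < (r + 1 + 1) ^ K := Nat.pow_lt_pow_left (by omega) (by omega)
      omega

lemma gS_triv {S : Finset ℕ} (hS : Nrm S) (z : ℕ) : gS S z ≤ 2 ^ (z + 1) := by
  unfold gS
  calc ∏ p ∈ S.filter (fun p => p ≤ z), (1 + 1 / ((p : ℝ) - 2)) ≤ ∏ p ∈ S.filter (fun p => p ≤ z), (2 : ℝ) := by
        apply prod_le_prod
        · intro p hp
          have h5 : 3 ≤ p := (hS.1 p (mem_filter.1 hp).1).2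
          have h6 : (3 : ℝ) ≤ p := by exact_mod_cast h5
          have : 0 < 1 / ((p : ℝ) - 2) := by apply div_pos one_pos; linarith
          linarith
        · intro p hp
          have h5 : 3 ≤ p := (hS.1 p (mem_filter.1 hp).1).2
          have h6 : (3 : ℝ) ≤ p := by exact_mod_cast h5
          have : 1 / ((p : ℝ) - 2) ≤ 1 := by
            rw [div_le_one (by linarith)]; linarith
          linarith
    _ = 2 ^ (S.filter (fun p => p ≤ z)).card := by rw [prod_const]
    _ ≤ 2 ^ (z + 1) := by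
        apply pow_le_pow_right₀ (by norm_num)
        calc (S.filter (fun p => p ≤ z)).card ≤ (range (z + 1)).card := by
              apply card_le_card
              intro p hp
              rw [mem_filter] at hp
              rw [mem_range]
              omega
          _ = z + 1 := card_range _

theorem nq_bound (ε : ℝ) (hε : 0 < ε) : ∃ C : ℝ, 0 < C ∧ ∀ S : Finset ℕ, Nrm S → S.Nonempty →
    ∀ P : ℕ, 3 ≤ P → (∀ p ∈ S, P ≤ p) →
    ∏ p ∈ S, ((p : ℝ) / ((p : ℝ) - 1)) ≤ C + (1 + ε) * Real.log (1 + Real.log S.card / Real.log P) := by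
  obtain ⟨ε1, hε1⟩ : ∃ ε1 : ℝ, ε1 = min (ε / 8) (1 / 2) := ⟨_, rfl⟩
  have h1a : 0 < ε1 := by rw [hε1]; positivity
  have h1b : ε1 ≤ ε / 8 := by rw [hε1]; exact min_le_left _ _
  have h1c : ε1 ≤ 1 / 2 := by rw [hε1]; exact min_le_right _ _
  have hcube : (1 + ε1) ^ 3 ≤ 1 + ε := by nlinarith [mul_pos h1a h1a, mul_nonneg (mul_nonneg h1a.le h1a.le) h1a.le]
  have hcube4 : (1 + ε1) ^ 3 ≤ 4 := by nlinarith [mul_pos h1a h1a, mul_nonneg (mul_nonneg h1a.le h1a.le) h1a.le]
  obtain ⟨ε2, hε2⟩ : ∃ ε2 : ℝ, ε2 = ε1 / 3 := ⟨_, rfl⟩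
  have h2a : 0 < ε2 := by rw [hε2]; positivity
  have hsq : (1 + ε2) * (1 + ε2) ≤ 1 + ε1 := by rw [hε2]; nlinarith
  obtain ⟨K, hK3, x0, hx0, hrec⟩ := recip_bound ε2 h2a
  have hK0 : (0 : ℝ) < K := by exact_mod_cast (by omega : 0 < K)
  have hK3' : (3 : ℝ) ≤ K := by exact_mod_cast hK3
  obtain ⟨h, hh⟩ : ∃ h : ℝ, h = Real.log K := ⟨_, rfl⟩
  have hh1 : 1 ≤ h := by
    rw [hh, Real.le_log_iff_exp_le hK0]
    have := Real.exp_one_lt_d9
    linarith
  have hexph : Real.exp h = K := by rw [hh, Real.exp_log hK0]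
  obtain ⟨C0, hC0, hgrow⟩ := growth h ε1 (2 ^ (x0 ^ K + 1)) hh1 h1a h1c (one_le_pow₀ (by norm_num))
  obtain ⟨D, hD⟩ : ∃ D : ℝ, D = C0 + 4 * (h + Real.log (4 * K)) := ⟨_, rfl⟩
  have hlog4K : 0 < Real.log (4 * K) := Real.log_pos (by linarith)
  have hD0 : 0 < D := by rw [hD]; positivity
  refine ⟨3 * D + 8, by positivity, ?_⟩
  intro S hS hne P hP3 hPS
  obtain ⟨m, hm⟩ : ∃ m, m = S.card := ⟨_, rfl⟩
  rw [← hm]
  have hm1 : 1 ≤ m := by rw [hm]; exact card_pos.2 hne
  obtain ⟨ρ, hρ1, hρ2⟩ := exists_root K (by omega) (P - 1)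
  obtain ⟨y0, hy0⟩ : ∃ y0, y0 = max x0 ρ := ⟨_, rfl⟩
  have hy0x : x0 ≤ y0 := by rw [hy0]; exact le_max_left _ _
  have hy03 : 3 ≤ y0 := hx0.trans hy0x
  have hy0r : (3 : ℝ) ≤ y0 := by exact_mod_cast hy03
  have hℓ1 : 1 ≤ Real.log y0 := by
    rw [Real.le_log_iff_exp_le (by linarith)]
    have := Real.exp_one_lt_d9
    linarith
  have hlP : Real.log P ≤ 2 * K * Real.log y0 := by
    have h3 : P ≤ (y0 + 1) ^ K := by
      have h4 : (ρ + 1) ^ K ≤ (y0 + 1) ^ K := by
        apply Nat.pow_le_pow_left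
        have : ρ ≤ y0 := by rw [hy0]; exact le_max_right _ _
        omega
      omega
    have h5 : P ≤ y0 ^ (2 * K) := by
      refine h3.trans ?_
      rw [pow_mul]
      apply Nat.pow_le_pow_left
      nlinarith
    have h6 : (P : ℝ) ≤ (y0 : ℝ) ^ (2 * K) := by exact_mod_cast h5
    have h7 := Real.log_le_log (by exact_mod_cast (by omega : 0 < P)) h6
    rw [Real.log_pow] at h7
    push_cast at h7
    exact h7
  have hP3r : (3 : ℝ) ≤ P := by exact_mod_cast hP3
  have hlP1 : 1 ≤ Real.log P := by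
    rw [Real.le_log_iff_exp_le (by linarith)]
    have := Real.exp_one_lt_d9
    linarith
  obtain ⟨Y, hY⟩ : ∃ Y : ℕ → ℕ, Y = fun j => y0 ^ (K ^ j) := ⟨_, rfl⟩
  have hYs : ∀ j, Y (j + 1) = Y j ^ K := by
    intro j; rw [hY]; simp only; rw [← pow_mul, pow_succ]
  have hYss : ∀ j, Y (j + 2) = Y j ^ (K ^ 2) := by
    intro j; rw [hYs, hYs, ← pow_mul, sq]
  have hYlog : ∀ j, Real.log (Y j : ℝ) = (K : ℝ) ^ j * Real.log y0 := by
    intro j; rw [hY]; simp only; push_cast; rw [Real.log_pow]; push_cast; ring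
  have hYge : ∀ j, y0 ≤ Y j := by
    intro j; rw [hY]; simp only
    exact Nat.le_self_pow (by positivity) y0
  have hKexp : ∀ j : ℕ, (K : ℝ) ^ j = Real.exp (h * j) := by
    intro j; rw [← hexph, ← Real.exp_nat_mul]; congr 1; ring
  have hlogY : ∀ j : ℕ, Real.exp (h * (j + 1)) ≤ Real.log (Y (j + 1) : ℝ) := by
    intro j
    rw [hYlog, hKexp]
    push_cast
    have := Real.exp_pos (h * (j + 1))
    nlinarith
  have hg1 : gS S (Y 1) ≤ 2 ^ (x0 ^ K + 1) := by
    rcases le_total ρ x0 with h3 | h3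
    · have h4 : y0 = x0 := by rw [hy0]; exact max_eq_left h3
      have h5 : Y 1 = x0 ^ K := by rw [hY]; simp [h4]
      rw [h5]
      exact gS_triv hS _
    · have h4 : y0 = ρ := by rw [hy0]; exact max_eq_right h3
      have h5 : Y 1 = ρ ^ K := by rw [hY]; simp [h4]
      have h6 : gS S (Y 1) = 1 := by
        unfold gS
        rw [filter_eq_empty_iff.2, prod_empty]
        intro p hp
        have := hPS p hp
        rw [h5]
        omega
      rw [h6]
      exact one_le_pow₀ (by norm_num)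
  have hG := hgrow (fun j => gS S (Y j)) (fun j => 1 / Real.log (Y (j + 1) : ℝ) ^ 9) (fun j => 1 / Real.log (Y (j + 1) : ℝ))
    (fun j => gS_ge hS _) (fun j => gS_mono hS (by rw [hYs]; exact Nat.le_self_pow (by omega) _)) hg1
    (fun j => by
      have := (Real.exp_pos _).trans_le (hlogY j)
      positivity)
    (fun j => by
      have := (Real.exp_pos _).trans_le (hlogY j)
      positivity)
    (fun j => by
      rw [Real.exp_neg, inv_eq_one_div]
      apply one_div_le_one_div_of_le (Real.exp_pos _)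
      have h3 : Real.exp (9 * h * (j + 1)) = Real.exp (h * (j + 1)) ^ 9 := by
        rw [← Real.exp_nat_mul]; congr 1; push_cast; ring
      rw [h3]
      exact pow_le_pow_left₀ (Real.exp_pos _).le (hlogY j) 9)
    (fun j => by
      rw [Real.exp_neg, inv_eq_one_div]
      exact one_div_le_one_div_of_le (Real.exp_pos _) (hlogY j))
    (fun j => by
      have h3 := hrec S hS (Y j) (hy0x.trans (hYge j))
      rw [← hYs, ← hYss] at h3
      refine h3.trans ?_
      have hg := gS_ge hS (Y (j + 1))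
      apply mul_le_mul_of_nonneg_left _ (by linarith)
      apply Real.exp_le_exp.2
      have hL := (Real.exp_pos _).trans_le (hlogY j)
      have hgj := gS_ge hS (Y j)
      obtain ⟨r, hr⟩ : ∃ r, r = 1 / Real.log (Y (j + 1) : ℝ) ^ 9 := ⟨_, rfl⟩
      obtain ⟨s, hs⟩ : ∃ s, s = 1 / Real.log (Y (j + 1) : ℝ) := ⟨_, rfl⟩
      rw [← hr, ← hs, ← hh]
      have hr0 : 0 ≤ r := by rw [hr]; positivity
      have hs0 : 0 ≤ s := by rw [hs]; positivity
      have hi0 : 0 < 1 / gS S (Y j) := by positivity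
      have e1 : (1 + ε2) * ((1 + ε2) / gS S (Y j) + r) ≤ (1 + ε1) * (1 / gS S (Y j) + r) := by
        have e2 : (1 + ε2) / gS S (Y j) = (1 + ε2) * (1 / gS S (Y j)) := by ring
        rw [e2]
        have e3 : (1 + ε2) * r ≤ (1 + ε1) * r := by
          apply mul_le_mul_of_nonneg_right _ hr0
          rw [hε2]; linarith
        have e4 := mul_le_mul_of_nonneg_right hsq hi0.le
        nlinarith
      have e5 : h + s ≤ h * (1 + s) := by nlinarith
      calc (1 + ε2) * ((1 + ε2) / gS S (Y j) + r) * (h + s)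
          ≤ (1 + ε1) * (1 / gS S (Y j) + r) * (h * (1 + s)) := by
            apply mul_le_mul e1 e5 (by linarith)
            positivity
        _ = (1 + ε1) * h * (1 / gS S (Y j) + r) * (1 + s) := by ring)
  -- choice of `j`
  have hex : ∃ j, m ^ 2 ≤ Y j := by
    refine ⟨m ^ 2, ?_⟩
    rw [hY]
    simp only
    have h3 : m ^ 2 < K ^ (m ^ 2) := Nat.lt_pow_self (by omega)
    have h4 : K ^ (m ^ 2) < y0 ^ (K ^ (m ^ 2)) := Nat.lt_pow_self (by omega)
    omega
  obtain ⟨j, hj1, hj2⟩ : ∃ j, m ^ 2 ≤ Y j ∧ h * j ≤ h + Real.log (4 * K) + Real.log (1 + Real.log m / Real.log P) := by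
    classical
    have hlm : 0 ≤ Real.log (m : ℝ) := Real.log_natCast_nonneg m
    have hq : 0 ≤ Real.log m / Real.log P := div_nonneg hlm (by linarith)
    have hl0 : 0 ≤ Real.log (1 + Real.log m / Real.log P) := Real.log_nonneg (by linarith)
    refine ⟨Nat.find hex, Nat.find_spec hex, ?_⟩
    obtain ⟨i, hi⟩ : ∃ i, i = Nat.find hex := ⟨_, rfl⟩
    rw [← hi]
    rcases Nat.eq_zero_or_pos i with h0 | h0
    · rw [h0]
      push_cast
      linarith
    · obtain ⟨l, rfl⟩ : ∃ l, i = l + 1 := ⟨i - 1, by omega⟩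
      have h3 : ¬ (m ^ 2 ≤ Y l) := Nat.find_min hex (by omega)
      push Not at h3
      have hY0 : 0 < Y l := lt_of_lt_of_le (by omega) (hYge l)
      have h4 : Real.log (Y l : ℝ) ≤ 2 * Real.log m := by
        have h5 : (Y l : ℝ) ≤ (m : ℝ) ^ 2 := by exact_mod_cast h3.le
        have h6 := Real.log_le_log (by exact_mod_cast hY0) h5
        rw [Real.log_pow] at h6
        push_cast at h6
        exact h6
      rw [hYlog] at h4
      have h7 : (K : ℝ) ^ l ≤ (4 * K) * (1 + Real.log m / Real.log P) := by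
        have h8 : (K : ℝ) ^ l * Real.log P ≤ (4 * K) * Real.log m := by
          calc (K : ℝ) ^ l * Real.log P ≤ (K : ℝ) ^ l * (2 * K * Real.log y0) :=
                mul_le_mul_of_nonneg_left hlP (by positivity)
            _ = 2 * K * ((K : ℝ) ^ l * Real.log y0) := by ring
            _ ≤ 2 * K * (2 * Real.log m) := mul_le_mul_of_nonneg_left h4 (by positivity)
            _ = (4 * K) * Real.log m := by ring
        have h9 : (K : ℝ) ^ l ≤ (4 * K) * Real.log m / Real.log P := by
          rw [le_div_iff₀ (by linarith)]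
          exact h8
        have h10 : (4 * K) * Real.log m / Real.log P = (4 * K) * (Real.log m / Real.log P) := by ring
        rw [h10] at h9
        linarith
      have h8 := Real.log_le_log (by positivity) h7
      rw [Real.log_pow, Real.log_mul (by positivity) (by positivity)] at h8
      rw [← hh] at h8
      push_cast
      linarith
  have hgj := hG j
  obtain ⟨Λ, hΛ⟩ : ∃ Λ, Λ = Real.log (1 + Real.log m / Real.log P) := ⟨_, rfl⟩
  rw [← hΛ] at hj2 ⊢
  have hlm : 0 ≤ Real.log (m : ℝ) := Real.log_natCast_nonneg m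
  have hq : 0 ≤ Real.log m / Real.log P := div_nonneg hlm (by linarith)
  have hΛ0 : 0 ≤ Λ := by rw [hΛ]; exact Real.log_nonneg (by linarith)
  have hmr : (1 : ℝ) ≤ m := by exact_mod_cast hm1
  have hΛm : Λ ≤ m := by
    rw [hΛ]
    have h3 := Real.log_le_sub_one_of_pos (show 0 < 1 + Real.log m / Real.log P by linarith)
    have h4 : Real.log m / Real.log P ≤ Real.log m := div_le_self hlm hlP1
    have h5 := Real.log_le_sub_one_of_pos (show (0 : ℝ) < m by linarith)
    linarith
  have hgj2 : gS S (Y j) ≤ D + (1 + ε) * Λ := by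
    have h3 : (1 + ε1) ^ 3 * h * j = (1 + ε1) ^ 3 * (h * j) := by ring
    rw [h3] at hgj
    have h4 := mul_le_mul_of_nonneg_left hj2 (show 0 ≤ (1 + ε1) ^ 3 by positivity)
    have h5 : (1 + ε1) ^ 3 * (h + Real.log (4 * K) + Λ) ≤ 4 * (h + Real.log (4 * K)) + (1 + ε) * Λ := by
      rw [mul_add]
      apply add_le_add
      · exact mul_le_mul_of_nonneg_right hcube4 (by positivity)
      · exact mul_le_mul_of_nonneg_right hcube hΛ0
    rw [hD]
    linarith
  have hgj3 : gS S (Y j) ≤ D + 4 * Λ := by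
    have h3 : (1 + ε1) ^ 3 * h * j = (1 + ε1) ^ 3 * (h * j) := by ring
    rw [h3] at hgj
    have h4 := mul_le_mul_of_nonneg_left hj2 (show 0 ≤ (1 + ε1) ^ 3 by positivity)
    have h5 : (1 + ε1) ^ 3 * (h + Real.log (4 * K) + Λ) ≤ 4 * (h + Real.log (4 * K)) + 4 * Λ := by
      rw [mul_add]
      apply add_le_add
      · exact mul_le_mul_of_nonneg_right hcube4 (by positivity)
      · exact mul_le_mul_of_nonneg_right hcube4 hΛ0
    rw [hD]
    linarith
  -- the product
  have hprod : ∏ p ∈ S, ((p : ℝ) / ((p : ℝ) - 1)) ≤ gS S (Y j) * (1 + 2 / m) := by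
    rw [← prod_filter_mul_prod_filter_not S (fun p => p ≤ Y j)]
    apply mul_le_mul
    · unfold gS
      apply prod_le_prod
      · intro p hp
        have h5 : 3 ≤ p := (hS.1 p (mem_filter.1 hp).1).2
        have h6 : (3 : ℝ) ≤ p := by exact_mod_cast h5
        apply div_nonneg <;> linarith
      · intro p hp
        have h5 : 3 ≤ p := (hS.1 p (mem_filter.1 hp).1).2
        have h6 : (3 : ℝ) ≤ p := by exact_mod_cast h5
        have h7 : (p : ℝ) - 1 ≠ 0 := by linarith
        have h8 : (p : ℝ) / ((p : ℝ) - 1) = 1 + 1 / ((p : ℝ) - 1) := by field_simp; ring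
        rw [h8]
        have : 1 / ((p : ℝ) - 1) ≤ 1 / ((p : ℝ) - 2) := one_div_le_one_div_of_le (by linarith) (by linarith)
        linarith
    · calc ∏ p ∈ S.filter (fun p => ¬ p ≤ Y j), ((p : ℝ) / ((p : ℝ) - 1))
          ≤ ∏ p ∈ S.filter (fun p => ¬ p ≤ Y j), Real.exp (1 / (m : ℝ) ^ 2) := by
            apply prod_le_prod
            · intro p hp
              have h5 : 3 ≤ p := (hS.1 p (mem_filter.1 hp).1).2
              have h6 : (3 : ℝ) ≤ p := by exact_mod_cast h5
              apply div_nonneg <;> linarith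
            · intro p hp
              rw [mem_filter, not_le] at hp
              have h5 : 3 ≤ p := (hS.1 p hp.1).2
              have h6 : (3 : ℝ) ≤ p := by exact_mod_cast h5
              have h7 : (p : ℝ) - 1 ≠ 0 := by linarith
              have h8 : (p : ℝ) / ((p : ℝ) - 1) = 1 + 1 / ((p : ℝ) - 1) := by field_simp; ring
              rw [h8]
              have h9 : (m : ℝ) ^ 2 ≤ (p : ℝ) - 1 := by
                have : m ^ 2 + 1 ≤ p := by omega
                have : ((m ^ 2 + 1 : ℕ) : ℝ) ≤ p := by exact_mod_cast this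
                push_cast at this
                linarith
              have h10 : 1 / ((p : ℝ) - 1) ≤ 1 / (m : ℝ) ^ 2 := one_div_le_one_div_of_le (by positivity) h9
              have := Real.add_one_le_exp (1 / (m : ℝ) ^ 2)
              linarith
        _ = Real.exp (((S.filter (fun p => ¬ p ≤ Y j)).card : ℝ) * (1 / (m : ℝ) ^ 2)) := by
            rw [prod_const, ← Real.exp_nat_mul]
        _ ≤ Real.exp (1 / m) := by
            apply Real.exp_le_exp.2
            have h5 : ((S.filter (fun p => ¬ p ≤ Y j)).card : ℝ) ≤ m := by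
              rw [hm]
              exact_mod_cast card_filter_le _ _
            calc ((S.filter (fun p => ¬ p ≤ Y j)).card : ℝ) * (1 / (m : ℝ) ^ 2) ≤ m * (1 / (m : ℝ) ^ 2) :=
                  mul_le_mul_of_nonneg_right h5 (by positivity)
              _ = 1 / m := by
                  have : (m : ℝ) ≠ 0 := by linarith
                  field_simp
        _ ≤ 1 + 2 / m := by
            have h5 : (1 : ℝ) / m ≤ 1 := by rw [div_le_one (by linarith)]; exact hmr
            have h6 : (0 : ℝ) < 1 / m := by positivity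
            have h7 := exp_quad (1 / m) h6.le h5
            have h8 : (1 / (m : ℝ)) ^ 2 ≤ 1 / m := by nlinarith
            have h9 : (2 : ℝ) / m = 1 / m + 1 / m := by ring
            linarith
    · apply prod_nonneg
      intro p hp
      have h5 : 3 ≤ p := (hS.1 p (mem_filter.1 hp).1).2
      have h6 : (3 : ℝ) ≤ p := by exact_mod_cast h5
      apply div_nonneg <;> linarith
    · linarith [gS_ge hS (Y j)]
  have h9 : gS S (Y j) * (2 / m) ≤ 2 * D + 8 := by
    have h10 : gS S (Y j) * (2 / m) = gS S (Y j) * 2 / m := by ring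
    rw [h10, div_le_iff₀ (by linarith)]
    have h11 : D ≤ D * m := by nlinarith
    nlinarith
  calc ∏ p ∈ S, ((p : ℝ) / ((p : ℝ) - 1)) ≤ gS S (Y j) * (1 + 2 / m) := hprod
    _ = gS S (Y j) + gS S (Y j) * (2 / m) := by ring
    _ ≤ (D + (1 + ε) * Λ) + (2 * D + 8) := add_le_add hgj2 h9
    _ = 3 * D + 8 + (1 + ε) * Λ := by ring

end Pool.Agent.D0H48.Nq
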