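import Mathlib
import Pool.Agent.D0H48.Nq.Main
import Pool.Agent.H95R2.Leh.Congr

set_option autoImplicit false

/-! The bound for the number of prime factors of an integer coprime to its totient. -/

namespace Pool.Agent.D0H48.Nq

open Finset

lemma nrm_of_coprime {n : ℕ} (hn : 2 < n) (hc : Nat.Coprime n n.totient) : Nrm n.primeFactors := by
  have hodd : ¬ 2 ∣ n := by
    intro h2
    have h3 := Nat.totient_even hn
    have h4 : 2 ∣ Nat.gcd n n.totient := Nat.dvd_gcd h2 h3.two_dvd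
    rw [hc] at h4
    omega
  constructor
  · intro p hp
    have hpp := Nat.prime_of_mem_primeFactors hp
    refine ⟨hpp, ?_⟩
    have h2 := hpp.two_le
    have h3 : p ≠ 2 := by
      intro h
      exact hodd (h ▸ Nat.dvd_of_mem_primeFactors hp)
    omega
  · intro p hp q hq h
    have hpp := Nat.prime_of_mem_primeFactors hp
    have hqp := Nat.prime_of_mem_primeFactors hq
    have h1 : q ∣ p - 1 := (Nat.modEq_iff_dvd' hpp.one_le).1 (by
      unfold Nat.ModEq
      rw [h, Nat.mod_eq_of_lt hqp.one_lt])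
    have h2 : p - 1 ∣ n.totient := by
      have := Nat.totient_dvd_of_dvd (Nat.dvd_of_mem_primeFactors hp)
      rwa [Nat.totient_prime hpp] at this
    have h3 : q ∣ Nat.gcd n n.totient := Nat.dvd_gcd (Nat.dvd_of_mem_primeFactors hq) (h1.trans h2)
    rw [hc] at h3
    exact hqp.one_lt.ne' (Nat.dvd_one.1 h3)

lemma ratio_prod {n : ℕ} (hn : 0 < n) : (n : ℝ) / n.totient = ∏ p ∈ n.primeFactors, ((p : ℝ) / ((p : ℝ) - 1)) := by
  have h1 : (n.totient : ℝ) = n * ∏ p ∈ n.primeFactors, (1 - (p : ℝ)⁻¹) := by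
    have := Nat.totient_eq_mul_prod_factors n
    have h2 : ((n.totient : ℚ) : ℝ) = ((n * ∏ p ∈ n.primeFactors, (1 - (p : ℚ)⁻¹) : ℚ) : ℝ) := by rw [this]
    push_cast at h2
    exact h2
  have hn0 : (n : ℝ) ≠ 0 := by exact_mod_cast hn.ne'
  have h3 : ∏ p ∈ n.primeFactors, ((p : ℝ) / ((p : ℝ) - 1)) = (∏ p ∈ n.primeFactors, (1 - (p : ℝ)⁻¹))⁻¹ := by
    rw [← prod_inv_distrib]
    apply prod_congr rfl
    intro p hp
    have h4 : (2 : ℝ) ≤ p := by exact_mod_cast (Nat.prime_of_mem_primeFactors hp).two_le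
    have h5 : (p : ℝ) - 1 ≠ 0 := by linarith
    have h6 : (p : ℝ) ≠ 0 := by linarith
    rw [show 1 - (p : ℝ)⁻¹ = ((p : ℝ) - 1) / p by field_simp, inv_div]
  rw [h3, h1]
  field_simp

/-- sets of primes with large product -/
theorem set_bound (ε : ℝ) (hε : 0 < ε) : ∃ c : ℝ, 0 < c ∧ ∀ S : Finset ℕ, Nrm S → ∀ P : ℕ, P ∈ S →
    (∀ p ∈ S, P ≤ p) → 2 ≤ ∏ p ∈ S, ((p : ℝ) / ((p : ℝ) - 1)) →
    c * Real.exp ((1 - ε) * ∏ p ∈ S, ((p : ℝ) / ((p : ℝ) - 1))) * Real.log P ≤ Real.log S.card := by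
  obtain ⟨C, hC, hb⟩ := nq_bound ε hε
  refine ⟨Real.exp (-C) / 4, by positivity, fun S hS P hPm hPS hκ2 => ?_⟩
  have hne : S.Nonempty := ⟨P, hPm⟩
  have hP3 : 3 ≤ P := (hS.1 P hPm).2
  have h3 := hb S hS hne P hP3 hPS
  obtain ⟨κ, hκp⟩ : ∃ κ : ℝ, κ = ∏ p ∈ S, ((p : ℝ) / ((p : ℝ) - 1)) := ⟨_, rfl⟩
  rw [← hκp] at h3 hκ2 ⊢
  obtain ⟨m, hm⟩ : ∃ m, m = S.card := ⟨_, rfl⟩
  rw [← hm] at h3 ⊢
  have hP3r : (3 : ℝ) ≤ P := by exact_mod_cast hP3
  -- lower bound for the number of prime factors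
  have hm1 : ((P : ℝ) - 1) / 2 ≤ m := by
    have h4 : κ ≤ Real.exp (m / ((P : ℝ) - 1)) := by
      rw [hκp]
      calc ∏ p ∈ S, ((p : ℝ) / ((p : ℝ) - 1)) ≤ ∏ p ∈ S, Real.exp (1 / ((P : ℝ) - 1)) := by
            apply prod_le_prod
            · intro p hp
              have h6 : (3 : ℝ) ≤ p := by exact_mod_cast (hS.1 p hp).2
              apply div_nonneg <;> linarith
            · intro p hp
              have h6 : (P : ℝ) ≤ p := by exact_mod_cast hPS p hp
              have h7 : (p : ℝ) - 1 ≠ 0 := by linarith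
              have h8 : (p : ℝ) / ((p : ℝ) - 1) = 1 + 1 / ((p : ℝ) - 1) := by field_simp; ring
              rw [h8]
              have h9 : 1 / ((p : ℝ) - 1) ≤ 1 / ((P : ℝ) - 1) := one_div_le_one_div_of_le (by linarith) (by linarith)
              have := Real.add_one_le_exp (1 / ((P : ℝ) - 1))
              linarith
        _ = Real.exp (m / ((P : ℝ) - 1)) := by
            rw [prod_const, ← Real.exp_nat_mul, ← hm]
            congr 1
            ring
    have h5 : Real.log 2 ≤ m / ((P : ℝ) - 1) := by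
      rw [Real.log_le_iff_le_exp (by norm_num)]
      linarith
    rw [le_div_iff₀ (by linarith)] at h5
    have h6 := Real.log_two_gt_d9
    nlinarith
  have hm2 : 2 ≤ m := by
    by_contra hcon
    have h4 : m = 1 := by
      have : 1 ≤ m := by rw [hm]; exact card_pos.2 hne
      omega
    rw [h4] at hm
    obtain ⟨p, hp⟩ := card_eq_one.1 hm.symm
    rw [hp, prod_singleton] at hκp
    have hpm : p ∈ S := by rw [hp]; exact mem_singleton_self p
    have h6 : (3 : ℝ) ≤ p := by exact_mod_cast (hS.1 p hpm).2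
    rw [hκp, le_div_iff₀ (by linarith)] at hκ2
    linarith
  have hlm3 : Real.log P ≤ 3 * Real.log m := by
    have h4 : P ≤ m ^ 3 := by
      have h5 : P ≤ 2 * m + 1 := by
        have : (P : ℝ) ≤ 2 * m + 1 := by linarith
        exact_mod_cast this
      have h6 : 2 * m + 1 ≤ m ^ 3 := by
        have h8 : 2 * 2 * m ≤ m * m * m := Nat.mul_le_mul_right m (Nat.mul_le_mul hm2 hm2)
        have h7 : m ^ 3 = m * m * m := by ring
        omega
      omega
    have h5 := Real.log_le_log (by linarith : (0 : ℝ) < P) (show (P : ℝ) ≤ (m : ℝ) ^ 3 by exact_mod_cast h4)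
    rw [Real.log_pow] at h5
    push_cast at h5
    exact h5
  have hlP : 0 < Real.log P := Real.log_pos (by linarith)
  have hlm : 0 < Real.log (m : ℝ) := by linarith
  have h4 : 1 + Real.log m / Real.log P ≤ 4 * (Real.log m / Real.log P) := by
    have : 1 ≤ 3 * (Real.log m / Real.log P) := by
      rw [← mul_div_assoc, le_div_iff₀ hlP]
      linarith
    linarith
  have h5 : Real.exp ((κ - C) / (1 + ε)) ≤ 4 * (Real.log m / Real.log P) := by
    refine le_trans ?_ h4
    rw [← Real.le_log_iff_exp_le (by positivity), div_le_iff₀ (by linarith)]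
    linarith
  have h6 : (1 - ε) * κ - C ≤ (κ - C) / (1 + ε) := by
    rw [le_div_iff₀ (by linarith)]
    nlinarith [mul_nonneg (mul_nonneg hε.le hε.le) (by linarith : 0 ≤ κ), mul_pos hε hC]
  have h7 : Real.exp (-C) * Real.exp ((1 - ε) * κ) ≤ 4 * (Real.log m / Real.log P) := by
    rw [← Real.exp_add]
    refine le_trans (Real.exp_le_exp.2 ?_) h5
    linarith
  have h8 : 4 * (Real.log m / Real.log P) * Real.log P = 4 * Real.log m := by
    field_simp
  have h9 := mul_le_mul_of_nonneg_right h7 hlP.le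
  rw [h8] at h9
  linarith

/-- integers coprime to their totient -/
theorem coprime_bound (ε : ℝ) (hε : 0 < ε) : ∃ c : ℝ, 0 < c ∧ ∀ n : ℕ, 2 < n → Nat.Coprime n n.totient →
    2 * n.totient ≤ n →
    c * Real.exp ((1 - ε) * ((n : ℝ) / n.totient)) * Real.log n.minFac ≤ Real.log n.primeFactors.card := by
  obtain ⟨c, hc0, hb⟩ := set_bound ε hε
  refine ⟨c, hc0, fun n hn hc h2 => ?_⟩
  have hS := nrm_of_coprime hn hc
  have htot : (0 : ℝ) < n.totient := by exact_mod_cast Nat.totient_pos.2 (by omega)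
  have h3 := hb n.primeFactors hS n.minFac
    (Nat.mem_primeFactors.2 ⟨Nat.minFac_prime (by omega), Nat.minFac_dvd n, by omega⟩)
    (fun p hp => Nat.minFac_le_of_dvd (Nat.prime_of_mem_primeFactors hp).two_le (Nat.dvd_of_mem_primeFactors hp))
  rw [← ratio_prod (by omega)] at h3
  apply h3
  rw [le_div_iff₀ htot]
  exact_mod_cast h2

end Pool.Agent.D0H48.Nq
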